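import Pool.Agent.Work.MP_4a1422_co.Main

/-!
# MP_4a1422_co: induced poset saturation need not be bounded or linear

The linear dichotomy fails already in the Boolean lattice: for an explicit nine-element poset
`Nine` (two minimal elements below `t`, two maximal elements above `u`, three isolated points)
the induced saturation number of `[2]^n` has order of magnitude `√n`.
-/

namespace Pool.Agent.Results.MP_4a1422_co.SquareRoot

open Pool.Agent.Saturation

theorem result :
    (∀ n : ℕ, n ≤ satNumber 2 n Nine ^ 2) ∧
    (∀ n : ℕ, 25 ≤ n → satNumber 2 n Nine ≤ 70 * Nat.sqrt n) ∧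
    ¬ LinearDichotomy :=
  ⟨le_sat_sq, sat_le, not_linearDichotomy⟩

end Pool.Agent.Results.MP_4a1422_co.SquareRoot
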